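import Pool.Agent.Lib.MP_69386a_an.MN.Twist

set_option autoImplicit false
open Filter Topology MeasureTheory Set
open scoped ENNReal ContDiff

namespace Pool.Agent.Results.MP_69386a_an.Accretive

/-- The Euclidean inner product of the plane. -/
def dot (u v : ℝ × ℝ) : ℝ := u.1 * v.1 + u.2 * v.2

/-- `F` is the weak (distributional) derivative of `f` on `Ω`. -/
def IsWeakDerivOn (Ω : Set (ℝ × ℝ)) (f : ℝ × ℝ → ℝ × ℝ)
    (F : ℝ × ℝ → (ℝ × ℝ →L[ℝ] ℝ × ℝ)) : Prop :=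
  ∀ φ : ℝ × ℝ → ℝ, ContDiff ℝ ∞ φ → HasCompactSupport φ → tsupport φ ⊆ Ω → ∀ v : ℝ × ℝ,
    ∫ x in Ω, fderiv ℝ φ x v • f x = -∫ x in Ω, φ x • F x v

/-- A smooth injective map on `Ω` with Jacobian identically one. -/
def IsIncompressibleDiffeo (Ω : Set (ℝ × ℝ)) (g : ℝ × ℝ → ℝ × ℝ) : Prop :=
  ContDiffOn ℝ ∞ g Ω ∧ InjOn g Ω ∧ ∀ x ∈ Ω, (fderiv ℝ g x).det = 1

/-- The closed triangle spanned by three affinely independent points. -/
def hull (t : Affine.Triangle ℝ (ℝ × ℝ)) : Set (ℝ × ℝ) := convexHull ℝ (range t.points)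

/-- A homeomorphism of `Ω` onto its image that is affine with determinant one on each triangle of
a countable, locally finite decomposition of `Ω` into non-degenerate triangles. -/
def IsIncompressiblePiecewiseAffine (Ω : Set (ℝ × ℝ)) (g : ℝ × ℝ → ℝ × ℝ) : Prop :=
  IsEmbedding (Ω.domRestrict g) ∧
  ∃ (ι : Type) (_ : Countable ι) (t : ι → Affine.Triangle ℝ (ℝ × ℝ))
    (L : ι → (ℝ × ℝ →ᴬ[ℝ] ℝ × ℝ)),
    ⋃ i, hull (t i) = Ω ∧
    (∀ i j, i ≠ j → Disjoint (interior (hull (t i))) (interior (hull (t j)))) ∧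
    (∀ x ∈ Ω, ∃ U ∈ 𝓝 x, {i | (hull (t i) ∩ U).Nonempty}.Finite) ∧
    ∀ i, EqOn g (L i) (hull (t i)) ∧ (L i).contLinear.det = 1

/-- `f`, with derivative `F`, is a `W^{1,p}(Ω)` limit of a sequence of maps of the class `C`. -/
def IsLimitOf (C : (ℝ × ℝ → ℝ × ℝ) → Prop) (Ω : Set (ℝ × ℝ)) (p : ℝ≥0∞) (f : ℝ × ℝ → ℝ × ℝ)
    (F : ℝ × ℝ → (ℝ × ℝ →L[ℝ] ℝ × ℝ)) : Prop :=
  ∃ g : ℕ → ℝ × ℝ → ℝ × ℝ, (∀ k, C (g k)) ∧
    Tendsto (fun k => eLpNorm (g k - f) p (volume.restrict Ω) +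
      eLpNorm (fderiv ℝ (g k) - F) p (volume.restrict Ω)) atTop (𝓝 0)

/-- Let `f` be an incompressible `W^{1,p}` homeomorphism of a bounded convex planar domain such
that `A ∘ f ∘ D⁻¹ + κ id` is monotone for some `κ < 1` and linear maps `A`, `D` with the same
nonzero determinant. Then `f` is a `W^{1,p}` limit of incompressible diffeomorphisms, and of
incompressible piecewise affine homeomorphisms, exactly when it maps null sets to null sets. -/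
theorem result (Ω : Set (ℝ × ℝ)) (hΩ : IsOpen Ω) (hc : Convex ℝ Ω) (hb : Bornology.IsBounded Ω)
    (p : ℝ≥0∞) (hp : 1 ≤ p) (hp' : p ≠ ⊤) (f : ℝ × ℝ → ℝ × ℝ)
    (F : ℝ × ℝ → (ℝ × ℝ →L[ℝ] ℝ × ℝ)) (hf : IsEmbedding (Ω.domRestrict f))
    (hF : IsWeakDerivOn Ω f F) (hfp : MemLp f p (volume.restrict Ω))
    (hFp : MemLp F p (volume.restrict Ω)) (hJ : ∀ᵐ x ∂(volume.restrict Ω), (F x).det = 1)
    (A D : ℝ × ℝ →L[ℝ] ℝ × ℝ) (hD : D.det ≠ 0) (hA : A.det = D.det) (κ : ℝ) (hκ : κ < 1)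
    (hm : ∀ x ∈ Ω, ∀ y ∈ Ω,
      -κ * dot (D (x - y)) (D (x - y)) ≤ dot (A (f x - f y)) (D (x - y))) :
    List.TFAE [∀ N ⊆ Ω, volume N = 0 → volume (f '' N) = 0,
      IsLimitOf (IsIncompressibleDiffeo Ω) Ω p f F,
      IsLimitOf (IsIncompressiblePiecewiseAffine Ω) Ω p f F] :=
  Pool.Agent.Lib.MP_69386a_an.MN.twist hΩ hc hb hp hp' hf hF hfp hFp hJ hD hA hκ hm

end Pool.Agent.Results.MP_69386a_an.Accretive
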