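import Pool.Agent.Lib.MP_69386a_an.Estimate

set_option autoImplicit false
open Filter Topology MeasureTheory Set
open scoped ENNReal ContDiff

namespace Pool.Agent.Results.MP_69386a_an.NoApprox

/-- The open square `(-1,1)²`. -/
def square : Set (ℝ × ℝ) := Ioo (-1) 1 ×ˢ Ioo (-1) 1

/-- `F` is the weak (distributional) derivative of `f` on `Ω`. -/
def IsWeakDerivOn (Ω : Set (ℝ × ℝ)) (f : ℝ × ℝ → ℝ × ℝ)
    (F : ℝ × ℝ → (ℝ × ℝ →L[ℝ] ℝ × ℝ)) : Prop :=
  ∀ φ : ℝ × ℝ → ℝ, ContDiff ℝ ∞ φ → HasCompactSupport φ → tsupport φ ⊆ Ω → ∀ v : ℝ × ℝ,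
    ∫ x in Ω, fderiv ℝ φ x v • f x = -∫ x in Ω, φ x • F x v

/-- A smooth injective map on `Ω` with Jacobian identically one. -/
def IsIncompressibleDiffeo (Ω : Set (ℝ × ℝ)) (g : ℝ × ℝ → ℝ × ℝ) : Prop :=
  ContDiffOn ℝ ∞ g Ω ∧ InjOn g Ω ∧ ∀ x ∈ Ω, (fderiv ℝ g x).det = 1

/-- The closed triangle spanned by three affinely independent points. -/
def hull (t : Affine.Triangle ℝ (ℝ × ℝ)) : Set (ℝ × ℝ) := convexHull ℝ (range t.points)

/-- A homeomorphism of `Ω` onto its image that is affine with determinant one on each triangle of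
a countable, locally finite decomposition of `Ω` into non-degenerate triangles. -/
def IsIncompressiblePiecewiseAffine (Ω : Set (ℝ × ℝ)) (g : ℝ × ℝ → ℝ × ℝ) : Prop :=
  IsEmbedding (Ω.domRestrict g) ∧
  ∃ (ι : Type) (_ : Countable ι) (t : ι → Affine.Triangle ℝ (ℝ × ℝ))
    (L : ι → (ℝ × ℝ →ᴬ[ℝ] ℝ × ℝ)),
    ⋃ i, hull (t i) = Ω ∧
    (∀ i j, i ≠ j → Disjoint (interior (hull (t i))) (interior (hull (t j)))) ∧
    (∀ x ∈ Ω, ∃ U ∈ 𝓝 x, {i | (hull (t i) ∩ U).Nonempty}.Finite) ∧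
    ∀ i, EqOn g (L i) (hull (t i)) ∧ (L i).contLinear.det = 1

lemma square_eq : square = Metric.ball 0 1 := by
  ext x
  simp [square, Prod.norm_def, abs_lt]

/-- A homeomorphism of the square, in `W^{1,p}` for all `p < 2` and with Jacobian one almost
everywhere, that is not a `W^{1,p}` limit of incompressible diffeomorphisms or of incompressible
piecewise affine homeomorphisms, for any `p ≥ 1`. -/
theorem result :
    ∃ (f : ℝ × ℝ → ℝ × ℝ) (F : ℝ × ℝ → (ℝ × ℝ →L[ℝ] ℝ × ℝ)),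
      IsEmbedding (square.domRestrict f) ∧
      IsWeakDerivOn square f F ∧
      (∀ p : ℝ≥0∞, 1 ≤ p → p < 2 →
        MemLp f p (volume.restrict square) ∧ MemLp F p (volume.restrict square)) ∧
      (∀ᵐ x ∂(volume.restrict square), (F x).det = 1) ∧
      ∀ p : ℝ≥0∞, 1 ≤ p → ∀ g : ℕ → ℝ × ℝ → ℝ × ℝ,
        (∀ k, IsIncompressibleDiffeo square (g k) ∨ IsIncompressiblePiecewiseAffine square (g k)) →
        ¬ Tendsto (fun k => eLpNorm (g k - f) p (volume.restrict square) +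
          eLpNorm (fderiv ℝ (g k) - F) p (volume.restrict square)) atTop (𝓝 0) := by
  have hκ : (0 : ℝ) ≤ 3 / 4 := by norm_num
  rw [square_eq]
  refine ⟨Pool.Agent.Lib.MP_69386a_an.f (3 / 4), fderiv ℝ (Pool.Agent.Lib.MP_69386a_an.f (3 / 4)),
    Pool.Agent.Lib.MP_69386a_an.f_isEmbedding hκ,
    fun φ h1 h2 h3 v => Pool.Agent.Lib.MP_69386a_an.weak_deriv hκ h1 h2 h3 v,
    fun p h1 h2 => ⟨Pool.Agent.Lib.MP_69386a_an.memLp_f hκ p,
      Pool.Agent.Lib.MP_69386a_an.memLp_fderiv hκ h1 h2⟩,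
    Pool.Agent.Lib.MP_69386a_an.ae_det hκ, fun p hp g hg => ?_⟩
  have key : ∀ k, ContinuousOn (g k) (Metric.ball 0 1) ∧
      (∃ C, LipschitzOnWith C (g k) (Metric.closedBall 0 (15 / 16))) ∧
      ∀ᵐ x ∂(volume.restrict (Metric.ball (0 : ℝ × ℝ) 1)), (fderiv ℝ (g k) x).det = 1 := by
    intro k
    rcases hg k with ⟨h1, -, h3⟩ | ⟨h1, ι, _, t, L, h2, -, h4, h5⟩
    · refine ⟨h1.continuousOn, ?_, ?_⟩
      · exact (h1.mono (Metric.closedBall_subset_ball (by norm_num))).exists_lipschitzOnWith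
          (by simp) (convex_closedBall _ _) (isCompact_closedBall _ _)
      · filter_upwards [ae_restrict_mem measurableSet_ball] with x hx using h3 x hx
    · have hc : ContinuousOn (g k) (Metric.ball 0 1) :=
        continuousOn_iff_continuous_domRestrict.2 h1.continuous
      exact ⟨hc, Pool.Agent.Lib.MP_69386a_an.piecewise_affine hc (fun i => hull (t i)) L
        (fun i => ((finite_range _).isCompact_convexHull ℝ).isClosed)
        (fun i => convex_convexHull ℝ _) h2 h4 h5⟩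
  exact Pool.Agent.Lib.MP_69386a_an.not_approx hp g (fun k => (key k).1) (fun k => (key k).2.1)
    (fun k => (key k).2.2)

end Pool.Agent.Results.MP_69386a_an.NoApprox
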